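import Pool.Agent.Helper63.PG.Basic

/-! # PG, module GNM: `Γ` has no odd hole -/

set_option autoImplicit false

namespace Pool.Agent.Helper92.PG

open Pool.Agent.Helper63.PG

variable {V : Type*}

/-- a chord `(0, j)` is impossible -/
theorem main_GNM {G : SimpleGraph V} {T U : Set V} (hN : NOH G)
    (hC : ∀ x ∈ U, ∀ y ∈ U, ∀ z ∈ U, G.Adj x z → Cm G T x y → Cm G T y z →
      ∃ t ∈ T, G.Adj t x ∧ G.Adj t y ∧ G.Adj t z)
    (hT : ∀ (x : ℕ → V) (l : ℕ), GIP G T U x l → ∀ i j i' j' : ℕ, i + 2 ≤ j → j ≤ l →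
      i' + 2 ≤ j' → j' ≤ l → G.Adj (x i) (x j) → G.Adj (x i') (x j') → i = i' ∧ j = j')
    {L : ℕ} (hodd : Odd L) (h5 : 5 ≤ L) {f : ℕ → V} (hf : Hol (Gam G T U) f L) {j : ℕ}
    (hj2 : 2 ≤ j) (hjL : j + 1 < L) (hadj : G.Adj (f 0) (f j)) : False := by
  have hU : ∀ i < L, f i ∈ U := by
    intro i hi
    rcases Nat.eq_zero_or_pos i with h | h
    · subst h
      exact ((hf 0 1 (by omega) (by omega)).2 (Or.inl rfl)).1
    · have := ((hf (i - 1) i (by omega) hi).2 (Or.inl (by omega))).2.1
      exact this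
  have hE : ∀ i k, i < k → k < L → (k = i + 1 ∨ (i = 0 ∧ k + 1 = L)) →
      G.Adj (f i) (f k) ∧ Cm G T (f i) (f k) := fun i k hik hk h =>
    ((hf i k hik hk).2 h).2.2
  have hnCm : ∀ i k, i < k → k < L → ¬ (k = i + 1 ∨ (i = 0 ∧ k + 1 = L)) →
      G.Adj (f i) (f k) → ¬ Cm G T (f i) (f k) := fun i k hik hk h ha hc =>
    h ((hf i k hik hk).1 ⟨hU i (by omega), hU k hk, ha, hc⟩)
  have hj3 : 3 ≤ j := by
    by_contra hlt
    have : j = 2 := by omega
    subst this
    obtain ⟨t, ht, ht1, _, ht3⟩ := hC (f 0) (hU 0 (by omega)) (f 1) (hU 1 (by omega)) (f 2)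
      (hU 2 (by omega)) hadj (hE 0 1 (by omega) (by omega) (Or.inl rfl)).2
      (hE 1 2 (by omega) (by omega) (Or.inl rfl)).2
    exact hnCm 0 2 (by omega) (by omega) (by omega) hadj ⟨t, ht, ht1, ht3⟩
  have hjL3 : j + 3 ≤ L := by
    by_contra hlt
    have : L = j + 2 := by omega
    subst this
    obtain ⟨t, ht, ht1, _, ht3⟩ := hC (f 0) (hU 0 (by omega)) (f (j + 1)) (hU _ (by omega)) (f j)
      (hU j (by omega)) hadj (hE 0 (j + 1) (by omega) (by omega) (Or.inr ⟨rfl, rfl⟩)).2
      (hE j (j + 1) (by omega) (by omega) (Or.inl rfl)).2.symm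
    exact hnCm 0 j (by omega) (by omega) (by omega) hadj ⟨t, ht, ht1, ht3⟩
  by_cases hex : ∃ i' j', i' < j' ∧ j' < L ∧ ¬ (j' = i' + 1 ∨ (i' = 0 ∧ j' + 1 = L)) ∧
      ¬ (i' = 0 ∧ j' = j) ∧ G.Adj (f i') (f j')
  · obtain ⟨i', j', hij, hjL', hch, hne, hadj'⟩ := hex
    -- an unused index
    obtain ⟨r, hrL, hr0, hrj, hri', hrj'⟩ : ∃ r, r < L ∧ r ≠ 0 ∧ r ≠ j ∧ r ≠ i' ∧ r ≠ j' := by
      by_contra hcon
      push Not at hcon
      have c1 := hcon 1 (by omega) (by omega)
      have c2 := hcon 2 (by omega) (by omega)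
      have c3 := hcon 3 (by omega) (by omega)
      have c4 := hcon 4 (by omega) (by omega)
      by_cases e1 : i' = 1 ∨ i' = 2 ∨ i' = 3 ∨ i' = 4
      · by_cases e2 : j' = 1 ∨ j' = 2 ∨ j' = 3 ∨ j' = 4
        · by_cases e3 : j = 3
          · subst e3
            have d1 := c1 (by omega)
            have d2 := c2 (by omega)
            have d4 := c4 (by omega)
            omega
          · have d1 := c1 (by omega)
            have d2 := c2 (by omega)
            have d3 := c3 (by omega)
            omega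
        · have d1 := c1 (by omega)
          have d2 := c2 (by omega)
          omega
      · have d1 := c1 (by omega)
        have d2 := c2 (by omega)
        omega
    set ρ : ℕ := if r + 1 < L then r + 1 else 0 with hρ
    have hρL : ρ < L := by rw [hρ]; split_ifs <;> omega
    have hρ1 : ρ = r + 1 ∨ (ρ = 0 ∧ r + 1 = L) := by
      rw [hρ]
      split_ifs with h
      · exact Or.inl rfl
      · exact Or.inr ⟨rfl, by omega⟩
    set F : ℕ → V := fun m => f (if m + ρ < L then m + ρ else m + ρ - L) with hF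
    have hrot : Hol (Gam G T U) F L := hf.rot hρL (by omega)
    -- positions
    have hpos : ∀ k < L, ∃ k' < L, F k' = f k ∧
        ((ρ ≤ k ∧ k' + ρ = k) ∨ (k < ρ ∧ k' + ρ = k + L)) := by
      intro k hk
      rcases Nat.lt_or_ge k ρ with h | h
      · refine ⟨k + L - ρ, by omega, ?_, Or.inr ⟨h, by omega⟩⟩
        simp only [hF]
        rw [if_neg (by omega)]
        congr 1
        omega
      · refine ⟨k - ρ, by omega, ?_, Or.inl ⟨h, by omega⟩⟩
        simp only [hF]
        rw [if_pos (by omega)]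
        congr 1
        omega
    have hGIP : GIP G T U F (L - 2) := by
      have hUF : ∀ i < L, F i ∈ U := by
        intro i hi
        simp only [hF]
        split_ifs with h
        · exact hU _ h
        · exact hU _ (by omega)
      refine ⟨fun i hi => hUF i (by omega), fun i k hik hk => ?_⟩
      have := hrot i k hik (by omega)
      constructor
      · intro h
        have := this.1 ⟨hUF i (by omega), hUF k (by omega), h.1, h.2⟩
        omega
      · intro h
        exact (this.2 (Or.inl h)).2.2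
    obtain ⟨p0, hp0, hF0, hq0⟩ := hpos 0 (by omega)
    obtain ⟨pj, hpj, hFj, hqj⟩ := hpos j (by omega)
    obtain ⟨pi', hpi', hFi', hqi'⟩ := hpos i' (by omega)
    obtain ⟨pj', hpj', hFj', hqj'⟩ := hpos j' hjL'
    rw [← hF0, ← hFj] at hadj
    rw [← hFi', ← hFj'] at hadj'
    -- both chords sorted
    have key : ∀ p q p' q', G.Adj (F p) (F q) → G.Adj (F p') (F q') → p + 2 ≤ q → q ≤ L - 2 →
        p' + 2 ≤ q' → q' ≤ L - 2 → p = p' ∧ q = q' := fun p q p' q' h1 h2 h3 h4 h5 h6 =>
      hT F (L - 2) hGIP p q p' q' h3 h4 h5 h6 h1 h2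
    rcases Nat.lt_or_ge p0 pj with h1 | h1
    · rcases Nat.lt_or_ge pi' pj' with h2 | h2
      · have := key p0 pj pi' pj' hadj hadj' (by omega) (by omega) (by omega) (by omega)
        omega
      · have := key p0 pj pj' pi' hadj hadj'.symm (by omega) (by omega) (by omega) (by omega)
        omega
    · rcases Nat.lt_or_ge pi' pj' with h2 | h2
      · have := key pj p0 pi' pj' hadj.symm hadj' (by omega) (by omega) (by omega) (by omega)
        omega
      · have := key pj p0 pj' pi' hadj.symm hadj'.symm (by omega) (by omega) (by omega) (by omega)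
        omega
  · have hno : ∀ i' j', i' < j' → j' < L → ¬ (j' = i' + 1 ∨ (i' = 0 ∧ j' + 1 = L)) →
        ¬ (i' = 0 ∧ j' = j) → ¬ G.Adj (f i') (f j') := fun i' j' h1 h2 h3 h4 h5 =>
      hex ⟨i', j', h1, h2, h3, h4, h5⟩
    rw [Nat.odd_iff] at hodd
    rcases Nat.mod_two_eq_zero_or_one j with he | ho
    · -- j even
      refine hN (j + 1) (by rw [Nat.odd_iff]; omega) (by omega) f ?_
      intro i k hik hk
      constructor
      · intro ha
        by_contra hne
        exact hno i k hik (by omega) (by omega) (by omega) ha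
      · rintro (h | ⟨h, h'⟩)
        · exact (hE i k hik (by omega) (Or.inl h)).1
        · have hkj : k = j := by omega
          subst h
          subst hkj
          exact hadj
    · -- j odd
      refine hN (L - j + 1) (by rw [Nat.odd_iff]; omega) (by omega)
        (cat (fun m => f (j + m)) (L - 1 - j) (fun _ => f 0)) ?_
      intro i k hik hk
      rcases Nat.lt_or_ge (L - 1 - j) k with h | h
      · rw [cat_gt h, cat_le (by omega : i ≤ L - 1 - j)]
        show G.Adj (f (j + i)) (f 0) ↔ _
        rw [G.adj_comm]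
        constructor
        · intro ha
          by_contra hne
          exact hno 0 (j + i) (by omega) (by omega) (by omega) (by omega) ha
        · intro h'
          rcases Nat.eq_zero_or_pos i with h0 | h0
          · subst h0
            exact hadj
          · exact (hE 0 (j + i) (by omega) (by omega) (Or.inr ⟨rfl, by omega⟩)).1
      · rw [cat_le h, cat_le (by omega : i ≤ L - 1 - j)]
        show G.Adj (f (j + i)) (f (j + k)) ↔ _
        constructor
        · intro ha
          by_contra hne
          exact hno (j + i) (j + k) (by omega) (by omega) (by omega) (by omega) ha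
        · intro h'
          exact (hE (j + i) (j + k) (by omega) (by omega) (Or.inl (by omega))).1

theorem hGNM {G : SimpleGraph V} {T U : Set V} (hN : NOH G)
    (hC : ∀ x ∈ U, ∀ y ∈ U, ∀ z ∈ U, G.Adj x z → Cm G T x y → Cm G T y z →
      ∃ t ∈ T, G.Adj t x ∧ G.Adj t y ∧ G.Adj t z)
    (hT : ∀ (x : ℕ → V) (l : ℕ), GIP G T U x l → ∀ i j i' j' : ℕ, i + 2 ≤ j → j ≤ l →
      i' + 2 ≤ j' → j' ≤ l → G.Adj (x i) (x j) → G.Adj (x i') (x j') → i = i' ∧ j = j') :
    NOH (Gam G T U) := by
  intro L hodd h5 f hf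
  by_cases hex : ∃ i j, i < j ∧ j < L ∧ ¬ (j = i + 1 ∨ (i = 0 ∧ j + 1 = L)) ∧ G.Adj (f i) (f j)
  · obtain ⟨i, j, hij, hjL, hch, hadj⟩ := hex
    refine main_GNM hN hC hT hodd h5 (hf.rot (r := i) (by omega) (by omega)) (j := j - i)
      (by omega) (by omega) ?_
    show G.Adj (f (if 0 + i < L then 0 + i else 0 + i - L))
      (f (if j - i + i < L then j - i + i else j - i + i - L))
    rw [if_pos (by omega), if_pos (by omega), Nat.zero_add, show j - i + i = j by omega]
    exact hadj
  · refine hN L hodd h5 f ?_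
    intro i j hij hj
    constructor
    · intro ha
      by_contra hne
      exact hex ⟨i, j, hij, hj, hne, ha⟩
    · intro h
      exact ((hf i j hij hj).2 h).2.2.1

end Pool.Agent.Helper92.PG
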