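import Pool.Agent.Helper63.PG.Basic

/-! # PG, module LSM: Lemma S for one layer -/

set_option autoImplicit false

namespace Pool.Agent.Helper92.PG

open Pool.Agent.Helper63.PG

variable {V : Type*}

theorem fl_LSM (P : ℕ → Prop) {a i0 : ℕ} (h : i0 ≤ a) (hP : P i0) :
    ∃ p q, p ≤ i0 ∧ i0 ≤ q ∧ q ≤ a ∧ P p ∧ P q ∧ (∀ i < p, ¬ P i) ∧
      (∀ i, q < i → i ≤ a → ¬ P i) := by
  classical
  have hex : ∃ n, P n := ⟨i0, hP⟩
  refine ⟨Nat.find hex, Nat.findGreatest P a, Nat.find_min' hex hP, Nat.le_findGreatest h hP,
    Nat.findGreatest_le a, Nat.find_spec hex, Nat.findGreatest_spec h hP,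
    fun i hi => Nat.find_min hex hi, fun i hi hia => Nat.findGreatest_is_greatest hi hia⟩

theorem hLSM {G : SimpleGraph V} {R T U : Set V} (h : Lay G R T U) (hS : SPlus G T U)
    {π : V → V → ℕ} (hP : PRule G T U π) : LemS G T U := by
  intro x a ha hx hU hC hnC w hw i0 hi0 hwi
  have hTU : ∀ t, t ∈ T → t ∉ U := by
    intro t ht hu
    obtain ⟨r, hr, htr⟩ := h.tR t ht
    exact h.anti t hu r hr htr
  -- (1)
  have claim : ∀ w ∈ T, ∀ p q, p ≤ q → q ≤ a → G.Adj w (x p) → G.Adj w (x q) →
      (∀ i < p, ¬ G.Adj w (x i)) → (∀ i, q < i → i ≤ a → ¬ G.Adj w (x i)) → q ≤ p + 1 := by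
    intro w hw p q hpq hq hwp hwq hlt hgt
    by_contra hcon
    obtain ⟨δ, rfl⟩ : ∃ δ, q = p + δ + 2 := ⟨q - p - 2, by omega⟩
    have hne : ¬ (p = 0 ∧ p + δ + 3 = a + 1) := by
      rintro ⟨h1, h2⟩
      subst h1
      apply hnC
      refine ⟨w, hw, hwp, ?_⟩
      have : a = 0 + δ + 2 := by omega
      rw [this]
      exact hwq
    have hspl := hx.splice (by omega : p + δ + 2 < a + 1) hwp hwq hlt
      (fun i hi hi' => hgt i hi (by omega)) hne
    have hlast : splice x p w δ (a + 1 - δ - 1) = x a := by
      rw [splice_gt (by omega)]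
      congr 1
      omega
    have hzero : splice x p w δ 0 = x 0 := splice_le (Nat.zero_le _)
    refine hS (splice x p w δ) (a + 1 - δ) (by omega) hspl ?_ ?_ ?_ ?_ ?_ ?_
    · intro i hi
      rcases Nat.lt_trichotomy i (p + 1) with h1 | h1 | h1
      · rw [splice_le (by omega)]
        exact Or.inl (hU i (by omega))
      · subst h1
        rw [splice_mid]
        exact Or.inr hw
      · rw [splice_gt h1]
        exact Or.inl (hU _ (by omega))
    · exact ⟨p + 1, by omega, by rw [splice_mid]; exact hw⟩
    · rw [hzero]
      exact hU 0 (Nat.zero_le _)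
    · rw [hlast]
      exact hU a le_rfl
    · rw [hzero, hlast]
      exact hnC
    · intro i hi hi1 hi2
      rcases Nat.lt_trichotomy i (p + 1) with h1 | h1 | h1
      · rcases Nat.lt_or_ge i p with h2 | h2
        · rw [splice_le (by omega), splice_le (by omega)]
          exact hC i (by omega)
        · have h3 : i = p := by omega
          subst h3
          rw [splice_mid] at hi2
          exact absurd hi2 (hTU w hw)
      · subst h1
        rw [splice_mid] at hi1
        exact absurd hi1 (hTU w hw)
      · rw [splice_gt h1, splice_gt (by omega : p + 1 < i + 1)]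
        rw [show i + 1 + δ = i + δ + 1 by omega]
        exact hC _ (by omega)
  have hodd : Even (a + 1) := h.noh.even hx (by omega)
  obtain ⟨p, q, hp0, hq0, hqa, hwp, hwq, hlt, hgt⟩ := fl_LSM (fun i => G.Adj w (x i)) hi0 hwi
  have hqp := claim w hw p q (by omega) hqa hwp hwq hlt hgt
  rcases Nat.lt_or_ge p q with hlt' | hge
  · have hq1 : q = p + 1 := by omega
    subst hq1
    refine ⟨p, by omega, fun j hj => ⟨fun hadj => ?_, ?_⟩⟩
    · by_contra hcon
      rcases Nat.lt_or_ge j p with h1 | h1
      · exact hlt j h1 hadj
      · exact hgt j (by omega) hj hadj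
    · rintro (rfl | rfl)
      · exact hwp
      · exact hwq
  · exfalso
    have hq1 : q = p := by omega
    subst hq1
    have hwex : ∀ j ≤ a, (G.Adj w (x j) ↔ j = q) := by
      intro j hj
      constructor
      · intro hadj
        by_contra hcon
        rcases Nat.lt_or_ge j q with h1 | h1
        · exact hlt j h1 hadj
        · exact hgt j (by omega) hj hadj
      · rintro rfl
        exact hwp
    -- a vertex t seeing exactly x m, x (m+1)
    obtain ⟨m, hm, hqm⟩ : ∃ m, m < a ∧ (q < m ∨ m + 1 < q) := by
      rcases Nat.lt_or_ge q 2 with h1 | h1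
      · exact ⟨2, by omega, Or.inl h1⟩
      · exact ⟨0, by omega, Or.inr (by omega)⟩
    obtain ⟨t, ht, htm, htm1⟩ := hC m hm
    obtain ⟨p', q', hp0', hq0', hqa', hwp', hwq', hlt', hgt'⟩ :=
      fl_LSM (fun i => G.Adj t (x i)) (by omega : m + 1 ≤ a) htm1
    have hqp' := claim t ht p' q' (by omega) hqa' hwp' hwq' hlt' hgt'
    have hpm : p' ≤ m := by
      by_contra hcon
      exact hlt' m (by omega) htm
    have e1 : p' = m := by omega
    have e2 : q' = m + 1 := by omega
    subst e1
    subst e2
    have htex : ∀ j ≤ a, (G.Adj t (x j) ↔ j = p' ∨ j = p' + 1) := by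
      intro j hj
      constructor
      · intro hadj
        by_contra hcon
        rcases Nat.lt_or_ge j p' with h1 | h1
        · exact hlt' j h1 hadj
        · exact hgt' j (by omega) hj hadj
      · rintro (rfl | rfl)
        · exact hwp'
        · exact hwq'
    have htw : w ≠ t := by
      rintro rfl
      have := (hwex p' (by omega)).1 htm
      omega
    rw [Nat.even_iff] at hodd
    rcases hqm with hqm | hqm
    · -- q < m
      have P1 := hP w hw t ht htw (fun i => x (q + i)) (p' - q)
        (hx.arc (by omega) (by omega)) (fun i hi => hU _ (by omega))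
        (fun i hi => by
          show G.Adj w (x (q + i)) ↔ _
          rw [hwex _ (by omega)]; omega)
        (fun i hi => by
          show G.Adj t (x (q + i)) ↔ _
          rw [htex _ (by omega)]; omega)
      have P2 := hP w hw t ht htw _ _
        (hx.around (p := q) (q := p' + 1) (by omega) (by omega))
        (fun i hi => by
          rcases Nat.lt_or_ge q i with h1 | h1
          · rw [cat_gt h1]
            exact hU _ (by omega)
          · rw [cat_le h1]
            exact hU _ (by omega))
        (fun i hi => by
          rcases Nat.lt_or_ge q i with h1 | h1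
          · rw [cat_gt h1]
            show G.Adj w (x (a + 1 - 1 - (i - q - 1))) ↔ _
            rw [hwex _ (by omega)]; omega
          · rw [cat_le h1]
            show G.Adj w (x (q - i)) ↔ _
            rw [hwex _ (by omega)]; omega)
        (fun i hi => by
          rcases Nat.lt_or_ge q i with h1 | h1
          · rw [cat_gt h1]
            show G.Adj t (x (a + 1 - 1 - (i - q - 1))) ↔ _
            rw [htex _ (by omega)]; omega
          · rw [cat_le h1]
            show G.Adj t (x (q - i)) ↔ _
            rw [htex _ (by omega)]; omega)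
      omega
    · -- m + 1 < q
      have P1 := hP t ht w hw htw.symm (fun i => x (p' + 1 + i)) (q - (p' + 1))
        (hx.arc (by omega) (by omega)) (fun i hi => hU _ (by omega))
        (fun i hi => by
          show G.Adj t (x (p' + 1 + i)) ↔ _
          rw [htex _ (by omega)]; omega)
        (fun i hi => by
          show G.Adj w (x (p' + 1 + i)) ↔ _
          rw [hwex _ (by omega)]; omega)
      have P2 := hP t ht w hw htw.symm _ _
        (hx.around (p := p') (q := q) (by omega) (by omega))
        (fun i hi => by
          rcases Nat.lt_or_ge p' i with h1 | h1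
          · rw [cat_gt h1]
            exact hU _ (by omega)
          · rw [cat_le h1]
            exact hU _ (by omega))
        (fun i hi => by
          rcases Nat.lt_or_ge p' i with h1 | h1
          · rw [cat_gt h1]
            show G.Adj t (x (a + 1 - 1 - (i - p' - 1))) ↔ _
            rw [htex _ (by omega)]; omega
          · rw [cat_le h1]
            show G.Adj t (x (p' - i)) ↔ _
            rw [htex _ (by omega)]; omega)
        (fun i hi => by
          rcases Nat.lt_or_ge p' i with h1 | h1
          · rw [cat_gt h1]
            show G.Adj w (x (a + 1 - 1 - (i - p' - 1))) ↔ _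
            rw [hwex _ (by omega)]; omega
          · rw [cat_le h1]
            show G.Adj w (x (p' - i)) ↔ _
            rw [hwex _ (by omega)]; omega)
      omega

end Pool.Agent.Helper92.PG
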