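import Pool.Agent.Helper63.PG.Basic

/-! # PG, module MEY: odd cycles in `W` have two chords -/

set_option autoImplicit false

namespace Pool.Agent.Helper92.PG

open Pool.Agent.Helper63.PG

variable {V : Type*}

theorem cast_MEY {L a b : ℕ} (ha : a < L) (hb : b < L) (h : (a : ZMod L) = (b : ZMod L)) :
    a = b := by
  have := (ZMod.natCast_eq_natCast_iff' a b L).1 h
  rwa [Nat.mod_eq_of_lt ha, Nat.mod_eq_of_lt hb] at this

theorem cast1_MEY {L a b : ℕ} (ha : a < L) (hb : b < L) (h : (a : ZMod L) = (b : ZMod L) + 1) :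
    a = b + 1 ∨ (a = 0 ∧ b + 1 = L) := by
  rcases Nat.lt_or_ge (b + 1) L with h1 | h1
  · left
    refine cast_MEY ha h1 ?_
    rw [h]
    push_cast
    rfl
  · right
    have hbL : b + 1 = L := by omega
    refine ⟨?_, hbL⟩
    have h2 : ((b : ZMod L) + 1) = ((0 : ℕ) : ZMod L) := by
      have : ((b + 1 : ℕ) : ZMod L) = ((0 : ℕ) : ZMod L) := by
        rw [hbL]
        simp
      push_cast at this ⊢
      exact this
    exact cast_MEY ha (by omega) (h.trans h2)

open Pool.Agent.Helper24.OCM in
/-- the case of exactly one chord `(p, p + j)`, `j` even -/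
theorem main_MEY {G : SimpleGraph V} {T U W : Set V} {π : V → V → ℕ} (hN : NOH G)
    (hPar : ∀ (f : ℕ → V) (m : ℕ), IP G f m → (∀ i ≤ m, f i ∈ U) →
      (∀ i < m, ¬ Cm G T (f i) (f (i + 1))) → ∀ s ∈ T, ∀ t ∈ T, G.Adj s (f 0) → G.Adj t (f m) →
      m % 2 = 0 ∧ s = t ∨ m % 2 = π s t ∧ s ≠ t)
    (hWU : W ⊆ U) (hs : ∀ u ∈ U, ∃ t ∈ T, G.Adj t u)
    (hW : ∀ u ∈ W, ∀ v ∈ W, G.Adj u v → ¬ Cm G T u v)
    {L : ℕ} (hodd : Odd L) (h5 : 5 ≤ L) (f : ZMod L → V)
    (hfW : ∀ i, f i ∈ W) (hadj : ∀ i, G.Adj (f i) (f (i + 1)))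
    {p : ZMod L} {j : ℕ} (hjL : j < L) (hj : j % 2 = 0) (hch : IsChord G f p (p + j))
    (huniq : ∀ k l, IsChord G f k l → s(p, p + (j : ZMod L)) = s(k, l)) : False := by
  rw [Nat.odd_iff] at hodd
  haveI : NeZero L := ⟨by omega⟩
  set g : ℕ → V := fun m => f (p + m) with hg
  have hgW : ∀ m, g m ∈ W := fun m => hfW _
  have hj0 : j ≠ 0 := by
    rintro rfl
    have := hch.1
    simp at this
  have hj2 : 2 ≤ j := by omega
  have hj3 : j + 3 ≤ L := by
    by_contra hlt
    have h1 : j + 1 = L := by omega
    apply hch.2.2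
    have : ((j + 1 : ℕ) : ZMod L) = 0 := by rw [h1]; simp
    push_cast at this
    rw [add_assoc, this, add_zero]
  have hiff : ∀ i i', i < i' → i' < L → (G.Adj (g i) (g i') ↔
      i' = i + 1 ∨ (i = 0 ∧ i' + 1 = L) ∨ (i = 0 ∧ i' = j)) := by
    intro i i' hii hi'
    constructor
    · intro ha
      by_cases h1 : (p + (i' : ZMod L)) = p + i + 1
      · rw [add_assoc] at h1
        have := cast1_MEY hi' (by omega) (add_left_cancel h1)
        omega
      · by_cases h2 : (p + (i : ZMod L)) = p + i' + 1
        · rw [add_assoc] at h2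
          have := cast1_MEY (by omega) hi' (add_left_cancel h2)
          omega
        · have h3 := huniq (p + i) (p + i') ⟨ha, h1, h2⟩
          rw [Sym2.eq_iff] at h3
          rcases h3 with ⟨h3, h4⟩ | ⟨h3, h4⟩
          · have e1 : ((0 : ℕ) : ZMod L) = i := by
              have : p + ((0 : ℕ) : ZMod L) = p + i := by simpa using h3
              exact add_left_cancel this
            have e2 := cast_MEY (by omega) (by omega) e1
            have e3 := cast_MEY (by omega) (by omega) (add_left_cancel h4)
            omega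
          · have e1 : ((0 : ℕ) : ZMod L) = i' := by
              have : p + ((0 : ℕ) : ZMod L) = p + i' := by simpa using h3
              exact add_left_cancel this
            have e2 := cast_MEY (by omega) (by omega) e1
            omega
    · rintro (rfl | ⟨rfl, h⟩ | ⟨rfl, rfl⟩)
      · have := hadj (p + i)
        simp only [hg]
        push_cast
        rw [← add_assoc]
        exact this
      · have := (hadj (p + i')).symm
        simp only [hg]
        have h1 : p + (i' : ZMod L) + 1 = p + ((0 : ℕ) : ZMod L) := by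
          have : ((i' + 1 : ℕ) : ZMod L) = 0 := by rw [h]; simp
          push_cast at this
          rw [add_assoc, this]
          simp
        rw [h1] at this
        exact this
      · have := hch.1
        simp only [hg]
        simpa using this
  rcases Nat.lt_or_ge j 4 with h4 | h4
  · have hj2' : j = 2 := by omega
    subst hj2'
    obtain ⟨s, hsT, hsg⟩ := hs (g 1) (hWU (hgW 1))
    obtain ⟨t, htT, htg⟩ := hs (g 3) (hWU (hgW 3))
    have hIP1 : IP G (fun m => g (1 + m)) 2 := by
      intro i i' hii hi'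
      show G.Adj (g (1 + i)) (g (1 + i')) ↔ _
      rw [hiff _ _ (by omega) (by omega)]
      omega
    have P1 := hPar (fun m => g (1 + m)) 2 hIP1 (fun i _ => hWU (hgW _))
      (fun i hi => hW _ (hgW _) _ (hgW _) ((hIP1 i (i + 1) (by omega) (by omega)).2 rfl))
      s hsT t htT hsg htg
    have hIP2 : IP G (fun m => if m = 0 then g 1 else if m = 1 then g 0 else g (L + 1 - m))
        (L - 2) := by
      intro i i' hii hi'
      show G.Adj (if i = 0 then g 1 else if i = 1 then g 0 else g (L + 1 - i))
        (if i' = 0 then g 1 else if i' = 1 then g 0 else g (L + 1 - i')) ↔ _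
      rw [if_neg (by omega : ¬ i' = 0)]
      rcases Nat.lt_trichotomy i 1 with h1 | h1 | h1
      · have hi0 : i = 0 := by omega
        subst hi0
        rw [if_pos rfl]
        by_cases h2 : i' = 1
        · rw [if_pos h2, G.adj_comm, hiff 0 1 (by omega) (by omega)]
          omega
        · rw [if_neg h2, hiff _ _ (by omega) (by omega)]
          omega
      · subst h1
        rw [if_neg (by omega), if_pos rfl, if_neg (by omega), hiff _ _ (by omega) (by omega)]
        omega
      · rw [if_neg (by omega), if_neg (by omega), if_neg (by omega), G.adj_comm,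
          hiff _ _ (by omega) (by omega)]
        omega
    have hWh : ∀ m, (if m = 0 then g 1 else if m = 1 then g 0 else g (L + 1 - m)) ∈ W := by
      intro m
      split_ifs
      · exact hgW _
      · exact hgW _
      · exact hgW _
    have P2 := hPar _ (L - 2) hIP2 (fun i _ => hWU (hWh i))
      (fun i hi => hW _ (hWh _) _ (hWh _) ((hIP2 i (i + 1) (by omega) (by omega)).2 rfl))
      s hsT t htT
      (by
        show G.Adj s (if (0 : ℕ) = 0 then g 1 else if (0 : ℕ) = 1 then g 0 else g (L + 1 - 0))
        rw [if_pos rfl]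
        exact hsg)
      (by
        show G.Adj t (if L - 2 = 0 then g 1 else if L - 2 = 1 then g 0 else g (L + 1 - (L - 2)))
        rw [if_neg (by omega), if_neg (by omega), show L + 1 - (L - 2) = 3 by omega]
        exact htg)
    rcases P1 with ⟨_, P1⟩ | ⟨P1, P1'⟩
    · rcases P2 with ⟨P2, _⟩ | ⟨_, P2⟩
      · omega
      · exact P2 P1
    · rcases P2 with ⟨P2, _⟩ | ⟨P2, _⟩
      · omega
      · omega
  · refine hN (j + 1) (by rw [Nat.odd_iff]; omega) (by omega) g ?_
    intro i i' hii hi'
    rw [hiff _ _ hii (by omega)]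
    omega

open Pool.Agent.Helper24.OCM in
theorem hMEY {G : SimpleGraph V} {T U W : Set V} {π : V → V → ℕ} (hN : NOH G)
    (hPar : ∀ (f : ℕ → V) (m : ℕ), IP G f m → (∀ i ≤ m, f i ∈ U) →
      (∀ i < m, ¬ Cm G T (f i) (f (i + 1))) → ∀ s ∈ T, ∀ t ∈ T, G.Adj s (f 0) → G.Adj t (f m) →
      m % 2 = 0 ∧ s = t ∨ m % 2 = π s t ∧ s ≠ t)
    (hWU : W ⊆ U) (hs : ∀ u ∈ U, ∃ t ∈ T, G.Adj t u)
    (hW : ∀ u ∈ W, ∀ v ∈ W, G.Adj u v → ¬ Cm G T u v)
    {L : ℕ} (hodd : Odd L) (h5 : 5 ≤ L) (f : ZMod L → V) (hinj : Function.Injective f)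
    (hfW : ∀ i, f i ∈ W) (hadj : ∀ i, G.Adj (f i) (f (i + 1))) :
    ∃ i j k l : ZMod L, IsChord G f i j ∧ IsChord G f k l ∧ s(i, j) ≠ s(k, l) := by
  haveI : NeZero L := ⟨by omega⟩
  by_contra hcon
  push Not at hcon
  by_cases hex : ∃ p q, IsChord G f p q
  · obtain ⟨p, q, hpq⟩ := hex
    have huniq := fun k l (h : IsChord G f k l) => hcon p q k l hpq h
    rcases Nat.mod_two_eq_zero_or_one (q - p).val with he | ho
    · have hq : p + (((q - p).val : ℕ) : ZMod L) = q := by
        rw [ZMod.natCast_val, ZMod.cast_id', id]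
        ring
      refine main_MEY hN hPar hWU hs hW hodd h5 f hfW hadj (p := p) (j := (q - p).val)
        (ZMod.val_lt _) he ?_ ?_
      · rw [hq]
        exact hpq
      · rw [hq]
        exact huniq
    · have hp : q + (((p - q).val : ℕ) : ZMod L) = p := by
        rw [ZMod.natCast_val, ZMod.cast_id', id]
        ring
      have hne : q - p ≠ 0 := by
        intro h
        have : q = p := sub_eq_zero.1 h
        subst this
        exact G.loopless.irrefl _ hpq.1
      have hval : (p - q).val = L - (q - p).val := by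
        rw [← neg_sub q p, ZMod.neg_val, if_neg hne]
      have hlt := ZMod.val_lt (q - p)
      rw [Nat.odd_iff] at hodd
      refine main_MEY hN hPar hWU hs hW (Nat.odd_iff.2 hodd) h5 f hfW hadj (p := q)
        (j := (p - q).val) (ZMod.val_lt _) (by omega) ?_ ?_
      · rw [hp]
        exact ⟨hpq.1.symm, hpq.2.2, hpq.2.1⟩
      · rw [hp]
        intro k l h
        rw [Sym2.eq_swap]
        exact huniq k l h
  · push Not at hex
    refine hN L hodd h5 (fun m => f (m : ZMod L)) ?_
    intro i i' hii hi'
    show G.Adj (f (i : ZMod L)) (f (i' : ZMod L)) ↔ _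
    constructor
    · intro ha
      by_cases h1 : (i' : ZMod L) = i + 1
      · have := cast1_MEY hi' (by omega) h1
        omega
      · by_cases h2 : (i : ZMod L) = i' + 1
        · have := cast1_MEY (by omega) hi' h2
          omega
        · exact absurd ⟨ha, h1, h2⟩ (hex i i')
    · rintro (rfl | ⟨rfl, h⟩)
      · push_cast
        exact hadj _
      · have := (hadj (i' : ZMod L)).symm
        have h1 : (i' : ZMod L) + 1 = ((0 : ℕ) : ZMod L) := by
          have : ((i' + 1 : ℕ) : ZMod L) = 0 := by rw [h]; simp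
          push_cast at this
          rw [this]
          simp
        rw [h1] at this
        exact this

end Pool.Agent.Helper92.PG
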