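import Pool.Agent.Helper63.PG.Basic

/-! # PG, module QTM: an induced path of `Γ` has at most one chord -/

set_option autoImplicit false

namespace Pool.Agent.Helper92.PG

open Pool.Agent.Helper63.PG

variable {V : Type*}

/-- minimal choice of a pair -/
theorem minpair_QTM (P : ℕ → ℕ → Prop) {i0 j0 : ℕ} (h : P i0 j0) :
    ∃ i j, P i j ∧ ∀ i' j', P i' j' → j - i ≤ j' - i' := by
  classical
  have hex : ∃ n, ∃ i j, P i j ∧ j - i = n := ⟨_, i0, j0, h, rfl⟩
  obtain ⟨i, j, hij, hn⟩ := Nat.find_spec hex
  refine ⟨i, j, hij, fun i' j' h' => ?_⟩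
  rw [hn]
  exact Nat.find_min' hex ⟨i', j', h', rfl⟩

theorem hQTM {G : SimpleGraph V} {T U : Set V} {π : V → V → ℕ} (hN : NOH G)
    (hP : PRule G T U π) (hS : LemS G T U)
    (hC : ∀ x ∈ U, ∀ y ∈ U, ∀ z ∈ U, G.Adj x z → Cm G T x y → Cm G T y z →
      ∃ t ∈ T, G.Adj t x ∧ G.Adj t y ∧ G.Adj t z)
    (hQ : ∀ (x : ℕ → V) (l c d : ℕ), GIP G T U x l → c + 2 ≤ d → d ≤ l → G.Adj (x c) (x d) →
      (∀ i j, c ≤ i → i + 2 ≤ j → j ≤ d → G.Adj (x i) (x j) → i = c ∧ j = d) →
      LeftExt G T x c d)
    {x : ℕ → V} {l : ℕ} (hx : GIP G T U x l) {i j i' j' : ℕ} (hij : i + 2 ≤ j) (hj : j ≤ l)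
    (hij' : i' + 2 ≤ j') (hj' : j' ≤ l) (h1 : G.Adj (x i) (x j)) (h2 : G.Adj (x i') (x j')) :
    i = i' ∧ j = j' := by
  by_contra hcon
  -- the minimal chord
  obtain ⟨c, d, ⟨hcd, hdl, hcdA⟩, hcdmin⟩ :=
    minpair_QTM (fun i j => i + 2 ≤ j ∧ j ≤ l ∧ G.Adj (x i) (x j)) ⟨hij, hj, h1⟩
  have hmin : ∀ i j, c ≤ i → i + 2 ≤ j → j ≤ d → G.Adj (x i) (x j) → i = c ∧ j = d := by
    intro i j hci hij hjd hadj
    have := hcdmin i j ⟨hij, by omega, hadj⟩
    omega
  have hU := hx.1
  have hcon1 : ∀ i, i < l → G.Adj (x i) (x (i + 1)) ∧ Cm G T (x i) (x (i + 1)) := fun i hi =>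
    (hx.2 i (i + 1) (by omega) (by omega)).2 rfl
  have hnCm : ∀ i j, i + 2 ≤ j → j ≤ l → G.Adj (x i) (x j) → ¬ Cm G T (x i) (x j) := by
    intro i j hij hj hadj hcm
    have := (hx.2 i j (by omega) hj).1 ⟨hadj, hcm⟩
    omega
  -- (0)
  have hcd3 : c + 3 ≤ d := by
    by_contra hlt
    have hd2 : d = c + 2 := by omega
    subst hd2
    obtain ⟨t, ht, ht1, _, ht3⟩ := hC (x c) (hU c (by omega)) (x (c + 1)) (hU _ (by omega))
      (x (c + 2)) (hU _ (by omega)) hcdA (hcon1 c (by omega)).2 (hcon1 (c + 1) (by omega)).2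
    exact hnCm c (c + 2) le_rfl hdl hcdA ⟨t, ht, ht1, ht3⟩
  have hHol : Hol G (fun i => x (c + i)) (d - c + 1) := by
    intro i j hij hj
    show G.Adj (x (c + i)) (x (c + j)) ↔ _
    constructor
    · intro hadj
      rcases Nat.lt_or_ge (i + 1) j with h3 | h3
      · have := hmin (c + i) (c + j) (by omega) (by omega) (by omega) hadj
        omega
      · omega
    · rintro (rfl | ⟨rfl, h3⟩)
      · exact (hcon1 (c + i) (by omega)).1
      · have : c + j = d := by omega
        rw [this, Nat.add_zero]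
        exact hcdA
  have hodd : Even (d - c + 1) := hN.even hHol (by omega)
  rw [Nat.even_iff] at hodd
  have hLS : ∀ w ∈ T, ∀ k, c ≤ k → k ≤ d → G.Adj w (x k) → ∃ i, c ≤ i ∧ i < d ∧
      ∀ j, c ≤ j → j ≤ d → (G.Adj w (x j) ↔ j = i ∨ j = i + 1) := by
    intro w hw k hck hkd hadj
    obtain ⟨i, hi, hi2⟩ := hS (fun i => x (c + i)) (d - c) (by omega) hHol
      (fun i hi => hU _ (by omega)) (fun i hi => (hcon1 (c + i) (by omega)).2)
      (by
        show ¬ Cm G T (x (c + 0)) (x (c + (d - c)))
        rw [show c + (d - c) = d by omega]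
        exact hnCm c d hcd hdl hcdA) w hw (k - c) (by omega)
      (by
        show G.Adj w (x (c + (k - c)))
        rw [show c + (k - c) = k by omega]
        exact hadj)
    refine ⟨c + i, by omega, by omega, fun j hcj hjd => ?_⟩
    have := hi2 (j - c) (by omega)
    beta_reduce at this
    rw [show c + (j - c) = j by omega] at this
    rw [this]
    omega
  have hLE := hQ x l c d hx hcd hdl hcdA hmin
  have hRE0 := hQ (fun i => x (l - i)) l (l - d) (l - c) hx.rev (by omega) (by omega)
    (by
      show G.Adj (x (l - (l - d))) (x (l - (l - c)))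
      rw [show l - (l - d) = d by omega, show l - (l - c) = c by omega]
      exact hcdA.symm)
    (by
      intro i j hi hij hj hadj
      have := hmin (l - j) (l - i) (by omega) (by omega) (by omega) hadj.symm
      omega)
  have hRE : ∀ j, d < j → j ≤ l → (∀ m, c ≤ m → m + 2 ≤ j → ¬ G.Adj (x m) (x j)) ∧
      (∀ t ∈ T, G.Adj t (x j) → G.Adj t (x d) ∧ G.Adj t (x (d - 1))) := by
    intro j hdj hjl
    obtain ⟨e1, e2⟩ := hRE0 (l - j) (by omega)
    beta_reduce at e1 e2
    rw [show l - (l - j) = j by omega] at e1 e2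
    constructor
    · intro m hcm hmj hadj
      refine e1 (l - m) (by omega) (by omega) ?_
      rw [show l - (l - m) = m by omega]
      exact hadj.symm
    · intro t ht htj
      have := e2 t ht htj
      rw [show l - (l - d) = d by omega, show l - (l - d + 1) = d - 1 by omega] at this
      exact this
  -- all the other chords are large
  have hbig : ∀ i j, i + 2 ≤ j → j ≤ l → G.Adj (x i) (x j) → ¬ (i = c ∧ j = d) → i < c ∧ d < j := by
    intro i j hij hj hadj hne
    have hic : i < c := by
      by_contra hge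
      rcases Nat.lt_or_ge d j with h3 | h3
      · exact (hRE j h3 hj).1 i (by omega) hij hadj
      · exact hne (hmin i j (by omega) hij h3 hadj)
    refine ⟨hic, ?_⟩
    by_contra hge
    exact (hLE i hic).1 j hij (by omega) hadj
  have hex2 : ∃ i j, i + 2 ≤ j ∧ j ≤ l ∧ G.Adj (x i) (x j) ∧ ¬ (i = c ∧ j = d) := by
    by_cases h3 : i = c ∧ j = d
    · refine ⟨i', j', hij', hj', h2, ?_⟩
      rintro ⟨rfl, rfl⟩
      exact hcon h3
    · exact ⟨i, j, hij, hj, h1, h3⟩
  obtain ⟨i0, j0, hij0⟩ := hex2
  clear hij hj hij' hj' h1 h2 hcon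
  obtain ⟨i, j, ⟨hij, hjl, hA, hne⟩, hijmin⟩ := minpair_QTM
    (fun i j => i + 2 ≤ j ∧ j ≤ l ∧ G.Adj (x i) (x j) ∧ ¬ (i = c ∧ j = d)) hij0
  obtain ⟨hic, hdj⟩ := hbig i j hij hjl hA hne
  -- non-edges
  have hno : ∀ a b, i ≤ a → a + 2 ≤ b → b ≤ j → ¬ (a = c ∧ b = d) → ¬ (a = i ∧ b = j) →
      ¬ G.Adj (x a) (x b) := by
    intro a b ha hab hb hn1 hn2 hadj
    have := hijmin a b ⟨hab, by omega, hadj, hn1⟩
    omega
  have hadjiff : ∀ a b, i ≤ a → a < b → b ≤ j → ¬ (a = c ∧ b = d) → ¬ (a = i ∧ b = j) →
      (G.Adj (x a) (x b) ↔ b = a + 1) := by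
    intro a b ha hab hb hn1 hn2
    constructor
    · intro hadj
      by_contra hne
      exact hno a b ha (by omega) hb hn1 hn2 hadj
    · rintro rfl
      exact (hcon1 a (by omega)).1
  -- the vertices u and v
  obtain ⟨u, hu, hui, hui1⟩ := (hcon1 i (by omega)).2
  have huc := (hLE i hic).2 u hu hui
  have hucd : ∀ k, c ≤ k → k ≤ d → (G.Adj u (x k) ↔ k = c ∨ k = c + 1) := by
    obtain ⟨k, hk1, hk2, hk3⟩ := hLS u hu c le_rfl (by omega) huc.1
    have e1 := (hk3 c le_rfl (by omega)).1 huc.1
    have hkc : k = c := by omega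
    subst hkc
    exact hk3
  have hud : ∀ k, d < k → k ≤ l → ¬ G.Adj u (x k) := by
    intro k hk hkl hadj
    have := (hucd d (by omega) le_rfl).1 ((hRE k hk hkl).2 u hu hadj).1
    omega
  obtain ⟨v, hv, hvj1, hvj⟩ := (hcon1 (j - 1) (by omega)).2
  rw [show j - 1 + 1 = j by omega] at hvj
  have hvd := (hRE j hdj hjl).2 v hv hvj
  have hvcd : ∀ k, c ≤ k → k ≤ d → (G.Adj v (x k) ↔ k = d ∨ k = d - 1) := by
    obtain ⟨k, hk1, hk2, hk3⟩ := hLS v hv d (by omega) le_rfl hvd.1
    have e1 := (hk3 d (by omega) le_rfl).1 hvd.1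
    intro k' hk1' hk2'
    rw [hk3 k' hk1' hk2']
    omega
  have hvc : ∀ k, k < c → ¬ G.Adj v (x k) := by
    intro k hk hadj
    have := (hvcd c le_rfl (by omega)).1 ((hLE k hk).2 v hv hadj).1
    omega
  -- (a)
  have ha : Even (j - c) := by
    have hIP : IP G (cat (fun m => x (c + 1 + m)) (j - c - 1) (fun _ => x i))
        (j - c - 1 + 0 + 1) := by
      refine IP.cat ?_ (IP.single G _) ?_
      · intro a b hab hb
        show G.Adj (x (c + 1 + a)) (x (c + 1 + b)) ↔ _
        rw [hadjiff _ _ (by omega) (by omega) (by omega) (by omega) (by omega)]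
        omega
      · intro a ha b hb
        show G.Adj (x (c + 1 + a)) (x i) ↔ _
        rw [G.adj_comm]
        by_cases hlast : c + 1 + a = j
        · rw [hlast]
          exact ⟨fun _ => by omega, fun _ => hA⟩
        · rw [hadjiff _ _ (by omega) (by omega) (by omega) (by omega) (by omega)]
          omega
    have hap := hN.apex hIP (by omega) (w := u) (by
      intro k hk
      rcases Nat.lt_or_ge (j - c - 1) k with h3 | h3
      · rw [cat_gt h3]
        exact ⟨fun _ => by omega, fun _ => hui⟩
      · rw [cat_le h3]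
        show G.Adj u (x (c + 1 + k)) ↔ _
        rcases Nat.lt_or_ge d (c + 1 + k) with h4 | h4
        · exact ⟨fun hadj => absurd hadj (hud _ h4 (by omega)), fun h5 => by omega⟩
        · rw [hucd _ (by omega) h4]
          omega)
    rwa [show j - c - 1 + 0 + 1 = j - c by omega] at hap
  -- (b)
  have hb : Even (d - i) := by
    have hIP : IP G (cat (fun m => x (d - 1 - m)) (d - 1 - i) (fun _ => x j))
        (d - 1 - i + 0 + 1) := by
      refine IP.cat ?_ (IP.single G _) ?_
      · intro a b hab hb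
        show G.Adj (x (d - 1 - a)) (x (d - 1 - b)) ↔ _
        rw [G.adj_comm, hadjiff _ _ (by omega) (by omega) (by omega) (by omega) (by omega)]
        omega
      · intro a ha b hb
        show G.Adj (x (d - 1 - a)) (x j) ↔ _
        by_cases hlast : d - 1 - a = i
        · rw [hlast]
          exact ⟨fun _ => by omega, fun _ => hA⟩
        · rw [hadjiff _ _ (by omega) (by omega) (by omega) (by omega) (by omega)]
          omega
    have hap := hN.apex hIP (by omega) (w := v) (by
      intro k hk
      rcases Nat.lt_or_ge (d - 1 - i) k with h3 | h3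
      · rw [cat_gt h3]
        exact ⟨fun _ => by omega, fun _ => hvj⟩
      · rw [cat_le h3]
        show G.Adj v (x (d - 1 - k)) ↔ _
        rcases Nat.lt_or_ge (d - 1 - k) c with h4 | h4
        · exact ⟨fun hadj => absurd hadj (hvc _ h4), fun h5 => by omega⟩
        · rw [hvcd _ h4 (by omega)]
          omega)
    rwa [show d - 1 - i + 0 + 1 = d - i by omega] at hap
  rw [Nat.even_iff] at ha hb
  -- (c)
  have hc : i + 1 = c := by
    by_contra hne1
    have hIP0 : IP G (cat (fun _ => x c) 0 (fun m => x (d + m))) (0 + (j - d) + 1) := by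
      refine IP.cat (IP.single G _) ?_ ?_
      · intro a b hab hb
        show G.Adj (x (d + a)) (x (d + b)) ↔ _
        rw [hadjiff _ _ (by omega) (by omega) (by omega) (by omega) (by omega)]
        omega
      · intro a ha b hb
        show G.Adj (x c) (x (d + b)) ↔ _
        by_cases h3 : b = 0
        · subst h3
          exact ⟨fun _ => by omega, fun _ => hcdA⟩
        · rw [hadjiff _ _ (by omega) (by omega) (by omega) (by omega) (by omega)]
          omega
    have hIP : IP G (cat (cat (fun _ => x c) 0 (fun m => x (d + m))) (0 + (j - d) + 1)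
        (fun _ => x i)) (0 + (j - d) + 1 + 0 + 1) := by
      refine IP.cat hIP0 (IP.single G _) ?_
      intro a ha b hb
      rw [G.adj_comm]
      show G.Adj (x i) _ ↔ _
      rcases Nat.eq_zero_or_pos a with h3 | h3
      · subst h3
        rw [cat_le le_rfl]
        rw [hadjiff _ _ (by omega) (by omega) (by omega) (by omega) (by omega)]
        omega
      · rw [cat_gt h3]
        show G.Adj (x i) (x (d + (a - 0 - 1))) ↔ _
        by_cases hlast : d + (a - 0 - 1) = j
        · rw [hlast]
          exact ⟨fun _ => by omega, fun _ => hA⟩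
        · rw [hadjiff _ _ (by omega) (by omega) (by omega) (by omega) (by omega)]
          omega
    have hap := hN.apex hIP (by omega) (w := u) (by
      intro k hk
      rcases Nat.lt_or_ge (0 + (j - d) + 1) k with h3 | h3
      · rw [cat_gt h3]
        exact ⟨fun _ => by omega, fun _ => hui⟩
      · rw [cat_le h3]
        rcases Nat.eq_zero_or_pos k with h4 | h4
        · subst h4
          rw [cat_le le_rfl]
          exact ⟨fun _ => by omega, fun _ => huc.1⟩
        · rw [cat_gt h4]
          show G.Adj u (x (d + (k - 0 - 1))) ↔ _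
          rcases Nat.lt_or_ge d (d + (k - 0 - 1)) with h5 | h5
          · exact ⟨fun hadj => absurd hadj (hud _ h5 (by omega)), fun h5 => by omega⟩
          · rw [hucd _ (by omega) h5]
            omega)
    rw [Nat.even_iff] at hap
    omega
  -- (d)
  have hd' : j = d + 1 := by
    by_contra hne1
    have hIP0 : IP G (cat (fun _ => x d) 0 (fun m => x (c - m))) (0 + (c - i) + 1) := by
      refine IP.cat (IP.single G _) ?_ ?_
      · intro a b hab hb
        show G.Adj (x (c - a)) (x (c - b)) ↔ _
        rw [G.adj_comm, hadjiff _ _ (by omega) (by omega) (by omega) (by omega) (by omega)]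
        omega
      · intro a ha b hb
        show G.Adj (x d) (x (c - b)) ↔ _
        rw [G.adj_comm]
        by_cases h3 : b = 0
        · subst h3
          exact ⟨fun _ => by omega, fun _ => hcdA⟩
        · rw [hadjiff _ _ (by omega) (by omega) (by omega) (by omega) (by omega)]
          omega
    have hIP : IP G (cat (cat (fun _ => x d) 0 (fun m => x (c - m))) (0 + (c - i) + 1)
        (fun _ => x j)) (0 + (c - i) + 1 + 0 + 1) := by
      refine IP.cat hIP0 (IP.single G _) ?_
      intro a ha b hb
      show G.Adj _ (x j) ↔ _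
      rcases Nat.eq_zero_or_pos a with h3 | h3
      · subst h3
        rw [cat_le le_rfl]
        rw [hadjiff _ _ (by omega) (by omega) (by omega) (by omega) (by omega)]
        omega
      · rw [cat_gt h3]
        show G.Adj (x (c - (a - 0 - 1))) (x j) ↔ _
        by_cases hlast : c - (a - 0 - 1) = i
        · rw [hlast]
          exact ⟨fun _ => by omega, fun _ => hA⟩
        · rw [hadjiff _ _ (by omega) (by omega) (by omega) (by omega) (by omega)]
          omega
    have hap := hN.apex hIP (by omega) (w := v) (by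
      intro k hk
      rcases Nat.lt_or_ge (0 + (c - i) + 1) k with h3 | h3
      · rw [cat_gt h3]
        exact ⟨fun _ => by omega, fun _ => hvj⟩
      · rw [cat_le h3]
        rcases Nat.eq_zero_or_pos k with h4 | h4
        · subst h4
          rw [cat_le le_rfl]
          exact ⟨fun _ => by omega, fun _ => hvd.1⟩
        · rw [cat_gt h4]
          show G.Adj v (x (c - (k - 0 - 1))) ↔ _
          rcases Nat.lt_or_ge (c - (k - 0 - 1)) c with h5 | h5
          · exact ⟨fun hadj => absurd hadj (hvc _ h5), fun h5 => by omega⟩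
          · rw [hvcd _ (by omega) (by omega)]
            omega)
    rw [Nat.even_iff] at hap
    omega
  -- (e)
  subst hd'
  obtain rfl : i = c - 1 := by omega
  obtain ⟨t, ht, ht1, ht2⟩ := (hcon1 (c + 1) (by omega)).2
  rw [show c + 1 + 1 = c + 2 by omega] at ht2
  have htcd : ∀ k, c ≤ k → k ≤ d → (G.Adj t (x k) ↔ k = c + 1 ∨ k = c + 2) := by
    obtain ⟨k, hk1, hk2, hk3⟩ := hLS t ht (c + 1) (by omega) (by omega) ht1
    have e1 := (hk3 (c + 1) (by omega) (by omega)).1 ht1
    have e2 := (hk3 (c + 2) (by omega) (by omega)).1 ht2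
    have hkc : k = c + 1 := by omega
    subst hkc
    exact hk3
  have htc1 : ¬ G.Adj t (x (c - 1)) := by
    intro hadj
    have := (htcd c le_rfl (by omega)).1 ((hLE (c - 1) hic).2 t ht hadj).1
    omega
  have htd1 : ¬ G.Adj t (x (d + 1)) := by
    intro hadj
    have e1 := (htcd d (by omega) le_rfl).1 ((hRE (d + 1) hdj hjl).2 t ht hadj).1
    omega
  have hut : u ≠ t := by
    rintro rfl
    have := (htcd c le_rfl (by omega)).1 huc.1
    omega
  have P1 := hP u hu t ht hut (fun _ => x (c + 1)) 0 (IP.single G _)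
    (fun k hk => hU _ (by omega)) (fun k hk => ⟨fun _ => by omega, fun _ => huc.2⟩)
    (fun k hk => ⟨fun _ => by omega, fun _ => ht1⟩)
  have hIP1 : IP G (cat (fun _ => x (c - 1)) 0 (fun m => x (d + 1 - m)))
      (0 + (d - c - 1) + 1) := by
    refine IP.cat (IP.single G _) ?_ ?_
    · intro a b hab hb
      show G.Adj (x (d + 1 - a)) (x (d + 1 - b)) ↔ _
      rw [G.adj_comm, hadjiff _ _ (by omega) (by omega) (by omega) (by omega) (by omega)]
      omega
    · intro a ha b hb
      show G.Adj (x (c - 1)) (x (d + 1 - b)) ↔ _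
      by_cases h3 : b = 0
      · subst h3
        exact ⟨fun _ => by omega, fun _ => hA⟩
      · rw [hadjiff _ _ (by omega) (by omega) (by omega) (by omega) (by omega)]
        omega
  have P2 := hP u hu t ht hut _ _ hIP1
    (fun k hk => by
      rcases Nat.eq_zero_or_pos k with h4 | h4
      · subst h4
        rw [cat_le le_rfl]
        exact hU _ (by omega)
      · rw [cat_gt h4]
        exact hU _ (by omega))
    (fun k hk => by
      rcases Nat.eq_zero_or_pos k with h4 | h4
      · subst h4
        rw [cat_le le_rfl]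
        exact ⟨fun _ => rfl, fun _ => hui⟩
      · rw [cat_gt h4]
        show G.Adj u (x (d + 1 - (k - 0 - 1))) ↔ _
        rcases Nat.lt_or_ge d (d + 1 - (k - 0 - 1)) with h5 | h5
        · exact ⟨fun hadj => absurd hadj (hud _ h5 (by omega)), fun h5 => by omega⟩
        · rw [hucd _ (by omega) h5]
          omega)
    (fun k hk => by
      rcases Nat.eq_zero_or_pos k with h4 | h4
      · subst h4
        rw [cat_le le_rfl]
        exact ⟨fun hadj => absurd hadj htc1, fun h5 => by omega⟩
      · rw [cat_gt h4]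
        show G.Adj t (x (d + 1 - (k - 0 - 1))) ↔ _
        rcases Nat.lt_or_ge d (d + 1 - (k - 0 - 1)) with h5 | h5
        · have h6 : d + 1 - (k - 0 - 1) = d + 1 := by omega
          rw [h6]
          exact ⟨fun hadj => absurd hadj htd1, fun h5 => by omega⟩
        · rw [htcd _ (by omega) h5]
          omega)
  omega

end Pool.Agent.Helper92.PG
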